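import Pool.Agent.Lib.MP_144d21_co.PSI.Iface

/-!
# MP_144d21_co, project XU3, part PSI, module TRANS (helper33)

Two translations, linearly independent on the three Kempe components through a vertex.
-/

set_option autoImplicit false

namespace Pool.Agent.Xu.H33

open Finset Polynomial Pool.Agent.Xu

/-- signs of the stress of the four colour points -/
def el (i : ℕ) : ℝ := if i = 0 then 1 else if i = 1 then -1 else if i = 2 then 1 else -1

/-- two functions on the colours, orthogonal to `el` -/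
def th (k i : ℕ) : ℝ :=
  if k = 0 then (if i = 0 then 0 else if i = 1 then 0 else if i = 2 then 1 else 1)
  else (if i = 0 then 0 else if i = 1 then 1 else if i = 2 then 1 else 0)

/-- coefficients of the translations -/
def yy (k : ℕ) (s : ℕ × ℕ) : ℝ := el s.1 * el s.2 * (th k s.1 - th k s.2)

/-- the pairs which contain `a` -/
def pa (a : ℕ) : Finset (ℕ × ℕ) := prs.filter fun s => s.1 = a ∨ s.2 = a

theorem pa_card (a : ℕ) (h : a < 4) : (pa a).card = 3 := by
  interval_cases a <;> decide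

section

variable {V : Type} [Fintype V] [DecidableEq V] {G : SimpleGraph V} {S : Finset V} {c : V → ℕ}

omit [Fintype V] in
theorem mem_of_wv {x : KC G S c} {v : V} (h : wv ℝ x v ≠ 0) : v ∈ x.1.2 := by
  by_contra h2
  exact h (by unfold wv; rw [if_neg h2])

theorem image_inc (hK : KcompS) (hc : c ∈ cols G S 4) {v : V} (hv : v ∈ S) :
    (inc (fun x : KC G S c => wv ℝ x) v).image (fun x => x.1.1) = pa (c v) := by
  obtain ⟨h1, -, -, h4, -⟩ := hK V G S c hc
  have h5 : Set.InjOn (fun x : KC G S c => x.1.1) (inc (fun x : KC G S c => wv ℝ x) v) := by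
    intro x hx y hy h
    exact h4 x y v h (mem_inc.1 hx) (mem_inc.1 hy)
  refine eq_of_subset_of_card_le (fun s hs => ?_) ?_
  · rw [mem_image] at hs
    obtain ⟨x, hx, rfl⟩ := hs
    unfold pa
    rw [mem_filter]
    refine ⟨x.2.1, ?_⟩
    have h6 := x.2.2.col v (mem_of_wv (mem_inc.1 hx))
    rcases h6 with h6 | h6
    · exact Or.inl h6.symm
    · exact Or.inr h6.symm
  · rw [card_image_of_injOn h5, h1 v hv, pa_card _ ((mem_cols.1 hc).1 v hv)]

theorem sum_wv (hK : KcompS) (hc : c ∈ cols G S 4) {v : V} (hv : v ∈ S) (y : ℕ × ℕ → ℝ) :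
    ∑ x : KC G S c, y x.1.1 * wv ℝ x v =
      ∑ s ∈ pa (c v), y s * (if c v = s.1 then 1 else -1) := by
  obtain ⟨-, -, -, h4, -⟩ := hK V G S c hc
  have h5 : Set.InjOn (fun x : KC G S c => x.1.1) (inc (fun x : KC G S c => wv ℝ x) v) := by
    intro x hx y hy h
    exact h4 x y v h (mem_inc.1 hx) (mem_inc.1 hy)
  rw [← image_inc hK hc hv, sum_image h5]
  symm
  refine sum_subset_zero_on_sdiff (subset_univ _) ?_ ?_
  · intro x hx
    rw [mem_sdiff, mem_inc, not_not] at hx
    rw [hx.2, mul_zero]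
  · intro x hx
    have h6 := mem_of_wv (mem_inc.1 hx)
    unfold wv
    rw [if_pos h6]

theorem rel_yy (hK : KcompS) (hc : c ∈ cols G S 4) (k : ℕ) :
    (fun x : KC G S c => yy k x.1.1) ∈ Rel (fun x : KC G S c => wv ℝ x) ∅ := by
  refine ⟨fun D hD => absurd hD (notMem_empty D), fun v => ?_⟩
  by_cases hv : v ∈ S
  · rw [sum_wv hK hc hv]
    have h1 := (mem_cols.1 hc).1 v hv
    generalize c v = a at h1
    have h2 : pa a = if a = 0 then {(0, 1), (0, 2), (0, 3)} else
        if a = 1 then {(0, 1), (1, 2), (1, 3)} else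
        if a = 2 then {(0, 2), (1, 2), (2, 3)} else {(0, 3), (1, 3), (2, 3)} := by
      interval_cases a <;> decide
    rw [h2]
    interval_cases a <;> by_cases hk : k = 0 <;>
      simp [yy, el, th, hk, sum_insert]
  · refine sum_eq_zero fun x _ => ?_
    have h1 := (hK V G S c hc).2.1 v hv
    have h2 : wv ℝ x v = 0 := by
      by_contra h3
      have h4 : x ∈ inc (fun x : KC G S c => wv ℝ x) v := mem_inc.2 h3
      rw [h1] at h4
      exact absurd h4 (notMem_empty x)
    show yy k x.1.1 * wv ℝ x v = 0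
    rw [h2, mul_zero]

theorem indep (hK : KcompS) (hc : c ∈ cols G S 4) {v : V} (hv : v ∈ S) (α β : ℝ)
    (h : ∀ x ∈ inc (fun x : KC G S c => wv ℝ x) v, α * yy 0 x.1.1 + β * yy 1 x.1.1 = 0) :
    α = 0 ∧ β = 0 := by
  have h1 : ∀ s ∈ pa (c v), α * yy 0 s + β * yy 1 s = 0 := by
    intro s hs
    rw [← image_inc hK hc hv, mem_image] at hs
    obtain ⟨x, hx, rfl⟩ := hs
    exact h x hx
  have h2 := (mem_cols.1 hc).1 v hv
  generalize c v = a at h1 h2
  interval_cases a
  · have e1 := h1 (0, 1) (by decide)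
    have e2 := h1 (0, 3) (by decide)
    simp [yy, el, th] at e1 e2
    exact ⟨e2, e1⟩
  · have e1 := h1 (0, 1) (by decide)
    have e2 := h1 (1, 2) (by decide)
    simp [yy, el, th] at e1 e2
    exact ⟨e2, e1⟩
  · have e1 := h1 (1, 2) (by decide)
    have e2 := h1 (2, 3) (by decide)
    simp [yy, el, th] at e1 e2
    exact ⟨e1, e2⟩
  · have e1 := h1 (0, 3) (by decide)
    have e2 := h1 (2, 3) (by decide)
    simp [yy, el, th] at e1 e2
    exact ⟨e1, e2⟩

end

theorem trans (hK : KcompS) : TransS := by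
  intro V _ _ G S c hc v hv
  have h1 := rel_yy hK hc 0
  have h2 := rel_yy hK hc 1
  have h3 : ∀ α β : ℝ, (∀ x ∈ inc (fun x : KC G S c => wv ℝ x) v,
      α * yy 0 x.1.1 + β * yy 1 x.1.1 = 0) → α = 0 ∧ β = 0 := fun α β => indep hK hc hv α β
  generalize (fun x : KC G S c => wv ℝ x) = w at h1 h2 h3
  set y1 : KC G S c → ℝ := fun x => yy 0 x.1.1 with hy1
  set y2 : KC G S c → ℝ := fun x => yy 1 x.1.1 with hy2
  have h4 : LinearIndependent ℝ ![y1, y2] := by
    rw [LinearIndependent.pair_iff]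
    intro a b hab
    refine h3 a b fun x _ => ?_
    have := congrFun hab x
    simpa [hy1, hy2] using this
  have h5 : Module.finrank ℝ (Submodule.span ℝ (Set.range ![y1, y2])) = 2 := by
    rw [finrank_span_eq_card h4, Fintype.card_fin]
  have h6 : Submodule.span ℝ (Set.range ![y1, y2]) ≤ Rel w ∅ := by
    rw [Submodule.span_le]
    rintro _ ⟨i, rfl⟩
    fin_cases i
    · exact h1
    · exact h2
  have h7 : Rel w (inc w v) ≤ Rel w ∅ := fun x hx =>
    ⟨fun D hD => absurd hD (notMem_empty D), hx.2⟩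
  have h8 : Submodule.span ℝ (Set.range ![y1, y2]) ⊓ Rel w (inc w v) = ⊥ := by
    rw [eq_bot_iff]
    rintro x ⟨hx1, hx2⟩
    rw [SetLike.mem_coe, Matrix.range_cons, Matrix.range_cons, Matrix.range_empty,
      Set.union_empty, Set.singleton_union, Submodule.mem_span_pair] at hx1
    obtain ⟨a, b, rfl⟩ := hx1
    obtain ⟨rfl, rfl⟩ := h3 a b fun x hx => by
      have := hx2.1 x hx
      simpa [hy1, hy2] using this
    simp
  have h9 := Submodule.finrank_sup_add_finrank_inf_eq (Submodule.span ℝ (Set.range ![y1, y2]))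
    (Rel w (inc w v))
  rw [h8, finrank_bot, h5] at h9
  have h10 := Submodule.finrank_mono (sup_le h6 h7)
  omega

end Pool.Agent.Xu.H33
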